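import Pool.Agent.H622R2.StrongDivRed
import Pool.Agent.R554.Collapse
import Pool.Agent.NPC.Sat

/-!
# Recognising strongly 2-divisible graphs is coNP-hard

The decision problem has as input a finite simple graph, given by an adjacency matrix
`M : List (List Bool)`; `matGraph M` is the graph.  The question is whether every induced subgraph
has a colouring of its vertices with two colours in which no maximal clique with at least two
vertices is monochromatic.
-/

set_option autoImplicit false

namespace Pool.Agent.Results.MP_65ccf5_lc.StrongTwoDivCoNPHard

open Pool.Agent.NPC Pool.Agent.H622R2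

/-- Not being strongly 2-divisible is hard. -/
theorem hardI_not_strongTwoDiv :
    HardI (fun M : List (List Bool) => ¬ StronglyDivisible 2 (matGraph M)) :=
  HardI.trans (Q := fun M : List (List Bool) => ¬ StronglyDivisible 2 (matGraph M)) hardI_SAT3
    sdRed_poly sdRed_correct

/-- The recognition of strongly 2-divisible graphs is `coNP`-hard under polynomial-time many-one
reductions; if it is in `P`, then all of `NP` is in `P`. -/
theorem result : CoNPHardP (fun M : List (List Bool) => StronglyDivisible 2 (matGraph M)) ∧
    (InPP (fun M : List (List Bool) => StronglyDivisible 2 (matGraph M)) →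
      ∀ L : Set (List Bool), InNP L → InP L) :=
  ⟨hardI_not_strongTwoDiv.toCoNPHardP, fun h =>
    R554.CoNPHard.collapse hardI_not_strongTwoDiv.toCoNPHardP h⟩

end Pool.Agent.Results.MP_65ccf5_lc.StrongTwoDivCoNPHard
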